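import Pool.Agent.H676.SC.Stm

/-!
# Project SC: numerical bounds for binomials and factorials
-/

set_option autoImplicit false

namespace Pool.Agent.H280.SC

open Pool.Agent.H676.SC

lemma num1 : (16 : ℕ) ^ 1000 ≤ 2 ^ 98 * 15 ^ 999 := by
  decide +kernel

lemma choose_pow (n k : ℕ) (h : 1000 * k ≤ n) : (n.choose k) ^ 1000 ≤ 2 ^ (98 * n) := by
  have hk : k ≤ n := by omega
  have h1 : 15 ^ (n - k) * n.choose k ≤ 16 ^ n := by
    have h2 : (16 : ℕ) ^ n = ∑ m ∈ Finset.range (n + 1), 1 ^ m * 15 ^ (n - m) * n.choose m := by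
      have h5 := add_pow (1 : ℕ) 15 n
      have h6 : (1 : ℕ) + 15 = 16 := rfl
      rw [h6] at h5
      rw [h5]
      simp
    rw [h2]
    have h3 := Finset.single_le_sum (f := fun m => 1 ^ m * 15 ^ (n - m) * n.choose m)
      (s := Finset.range (n + 1)) (fun i _ => Nat.zero_le _)
      (Finset.mem_range.mpr (Nat.lt_succ_of_le hk))
    simpa using h3
  have h4 : 15 ^ (999 * n) * (n.choose k) ^ 1000 ≤ 15 ^ (999 * n) * 2 ^ (98 * n) := by
    calc 15 ^ (999 * n) * (n.choose k) ^ 1000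
        ≤ 15 ^ ((n - k) * 1000) * (n.choose k) ^ 1000 :=
          Nat.mul_le_mul_right _ (Nat.pow_le_pow_right (by norm_num) (by omega))
      _ = (15 ^ (n - k) * n.choose k) ^ 1000 := by rw [mul_pow, ← pow_mul]
      _ ≤ (16 ^ n) ^ 1000 := Nat.pow_le_pow_left h1 _
      _ = (16 ^ 1000) ^ n := by rw [← pow_mul, ← pow_mul, mul_comm]
      _ ≤ (2 ^ 98 * 15 ^ 999) ^ n := Nat.pow_le_pow_left num1 _
      _ = 15 ^ (999 * n) * 2 ^ (98 * n) := by rw [mul_pow, ← pow_mul, ← pow_mul, mul_comm]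
  exact Nat.le_of_mul_le_mul_left h4 (by positivity)

lemma fact_large : ∃ M : ℕ, ∀ m : ℕ, M ≤ m → (2 ^ 100) ^ m < m.factorial := by
  have h1 := FloorSemiring.tendsto_pow_div_factorial_atTop (K := ℝ) (2 ^ 100)
  have h2 := h1.eventually_lt_const (u := 1) (by norm_num)
  obtain ⟨M, hM⟩ := Filter.eventually_atTop.mp h2
  refine ⟨M, fun m hm => ?_⟩
  have h3 := hM m hm
  rw [div_lt_one (by exact_mod_cast m.factorial_pos)] at h3
  exact_mod_cast h3

theorem t_NUM : S_NUM := by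
  obtain ⟨M, hM⟩ := fact_large
  refine ⟨100 * M + 100, fun n k hn hk => ⟨?_, ?_⟩⟩
  · calc n.choose k ≤ 2 ^ n := Nat.choose_le_two_pow n k
      _ ≤ 2 ^ (100 * (n / 100 + 1)) := Nat.pow_le_pow_right (by norm_num) (by omega)
      _ = (2 ^ 100) ^ (n / 100 + 1) := by rw [pow_mul]
      _ < (n / 100 + 1).factorial := hM _ (by omega)
  · apply lt_of_pow_lt_pow_left₀ 1000 (Nat.zero_le _)
    calc (n.choose k * 2 ^ (3 * (n / 100 + 1))) ^ 1000
        = (n.choose k) ^ 1000 * 2 ^ (3 * (n / 100 + 1) * 1000) := by rw [mul_pow, ← pow_mul]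
      _ ≤ 2 ^ (98 * n) * 2 ^ (3 * (n / 100 + 1) * 1000) :=
          Nat.mul_le_mul_right _ (choose_pow n k hk)
      _ = 2 ^ (98 * n + 3 * (n / 100 + 1) * 1000) := by rw [← pow_add]
      _ < 2 ^ (n / 4 * 1000) := Nat.pow_lt_pow_right (by norm_num) (by omega)
      _ = (2 ^ (n / 4)) ^ 1000 := by rw [← pow_mul]

end Pool.Agent.H280.SC
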